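import Pool.Agent.Q152.MS.Main

/-!
# Multiples among the sums of two consecutive primes: the quotients are unbounded

Let `S i = p_i + p_(i+1)` (`p_1 = 2`), and let `a n` be the least `k > n` with `S n ∣ S k` (if there is one). We show that the
quotient `S (a n) / S n` is unbounded: for every `C` there are infinitely many `n` for which `a n` exists and `S (a n) > C * S n`.
-/

set_option autoImplicit false

namespace Pool.Agent.Results.MP_78140d_nt.QuotientsUnbounded

/-- The sum of the `i`-th and the `(i + 1)`-th prime, `i ≥ 1` (`Nat.nth Nat.Prime 0 = 2` is the first prime). -/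
noncomputable def S (i : ℕ) : ℕ := Nat.nth Nat.Prime (i - 1) + Nat.nth Nat.Prime i

/-- For every `C` there are arbitrarily large `n` for which there is a `k > n` with `S n ∣ S k`, and the least such `k`
satisfies `S k > C * S n`. -/
theorem result : ∀ C P : ℕ, ∃ n k : ℕ, 1 ≤ n ∧ P < n ∧ IsLeast {k | n < k ∧ S n ∣ S k} k ∧ C * S n < S k := by
  intro C P
  obtain ⟨n, k, h1, h2, -, h3, h4⟩ := Pool.Agent.Q152.MSD.main C P
  exact ⟨n, k, h1, h2, h3, h4⟩

end Pool.Agent.Results.MP_78140d_nt.QuotientsUnbounded
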